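import Pool.Agent.H8.DS.TarK

/-!
Module HL of the board ds_modules (MP_81a758_an).
-/

set_option autoImplicit false

namespace DS

open Set Data

namespace H69HL

theorem main {C S B Q : Type} [Finite B] (X : Data C S) (w : S → ℝ) (hX : X.Surface)
    (hw : X.Wt w) (M : X.Model w B Q) : ∃ ρ : ℝ, 0 < ρ ∧ ρ < 1 ∧
    ∀ t : ℝ, ∀ v : List B, ∀ y y', (M.toFam.sys t).Go v y y' →
      (M.toFam.sys t).wal v * (X.len y'.1 / w y'.1) ≤ X.len y.1 / w y.1 ∧
      ((∃ b ∈ v, X.Hopf (X.comp (X.glue (M.src b)))) →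
        (M.toFam.sys t).wal v * (X.len y'.1 / w y'.1) ≤ ρ * (X.len y.1 / w y.1)) := by
  classical
  have hm : ∀ s, 0 < X.len s / w s := fun s => div_pos (hX.pos s) (hw.pos s)
  let r : Option B → ℝ := fun o => match o with
    | none => 1 / 2
    | some b => if X.Hopf (X.comp (X.glue (M.src b))) then
        M.al b * (X.len (M.tgt b) / w (M.tgt b)) / (X.len (M.src b) / w (M.src b)) else 1 / 2
  obtain ⟨o, ho⟩ := Finite.exists_max r
  have hρ0 : 0 < r o := lt_of_lt_of_le (by norm_num : (0 : ℝ) < 1 / 2) (ho none)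
  have hr1 : ∀ o, r o < 1 := by
    intro o
    cases o with
    | none =>
      show (1 / 2 : ℝ) < 1
      norm_num
    | some b =>
      show (if X.Hopf (X.comp (X.glue (M.src b))) then
        M.al b * (X.len (M.tgt b) / w (M.tgt b)) / (X.len (M.src b) / w (M.src b)) else 1 / 2) < 1
      split_ifs with h
      · rw [div_lt_one (hm _)]
        exact M.slope_hopf b h
      · norm_num
  have hb : ∀ b, X.Hopf (X.comp (X.glue (M.src b))) →
      M.al b * (X.len (M.tgt b) / w (M.tgt b)) ≤ r o * (X.len (M.src b) / w (M.src b)) := by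
    intro b h
    have h1 := ho (some b)
    have h2 : r (some b) =
        M.al b * (X.len (M.tgt b) / w (M.tgt b)) / (X.len (M.src b) / w (M.src b)) := if_pos h
    rw [h2, div_le_iff₀ (hm _)] at h1
    exact h1
  have hb' : ∀ b, M.al b * (X.len (M.tgt b) / w (M.tgt b)) ≤ X.len (M.src b) / w (M.src b) := by
    intro b
    by_cases h : X.Hopf (X.comp (X.glue (M.src b)))
    · exact (M.slope_hopf b h).le
    · exact (M.slope_flat b h).le
  refine ⟨r o, hρ0, hr1 o, ?_⟩
  intro t v
  induction v with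
  | nil =>
    intro y y' hgo
    have : y = y' := hgo
    subst this
    refine ⟨by simp [Sys.wal], fun h => ?_⟩
    obtain ⟨b, hb, -⟩ := h
    exact absurd hb List.not_mem_nil
  | cons b v ih =>
    intro y y' hgo
    obtain ⟨h1, h2, h3⟩ := hgo
    obtain ⟨i1, i2⟩ := ih _ _ h3
    have hs : M.src b = y.1 := h1
    have hal : 0 < M.al b := M.al_pos b
    have hwal : (M.toFam.sys t).wal (b :: v) = (M.toFam.sys t).wal v * M.al b := rfl
    have i1' : (M.toFam.sys t).wal v * (X.len y'.1 / w y'.1) ≤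
        X.len (M.tgt b) / w (M.tgt b) := i1
    rw [hwal, ← hs]
    have e1 : (M.toFam.sys t).wal v * M.al b * (X.len y'.1 / w y'.1) =
        M.al b * ((M.toFam.sys t).wal v * (X.len y'.1 / w y'.1)) := by ring
    have e2 : (M.toFam.sys t).wal v * M.al b * (X.len y'.1 / w y'.1) ≤
        M.al b * (X.len (M.tgt b) / w (M.tgt b)) := by
      rw [e1]
      exact mul_le_mul_of_nonneg_left i1' hal.le
    refine ⟨e2.trans (hb' b), ?_⟩
    rintro ⟨b', hb1, hb2⟩
    rcases List.mem_cons.1 hb1 with h | h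
    · rw [h] at hb2
      exact e2.trans (hb b hb2)
    · have i3 : (M.toFam.sys t).wal v * (X.len y'.1 / w y'.1) ≤
          r o * (X.len (M.tgt b) / w (M.tgt b)) := i2 ⟨b', h, hb2⟩
      rw [e1]
      calc M.al b * ((M.toFam.sys t).wal v * (X.len y'.1 / w y'.1))
          ≤ M.al b * (r o * (X.len (M.tgt b) / w (M.tgt b))) :=
            mul_le_mul_of_nonneg_left i3 hal.le
        _ = r o * (M.al b * (X.len (M.tgt b) / w (M.tgt b))) := by ring
        _ ≤ r o * (X.len (M.src b) / w (M.src b)) :=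
            mul_le_mul_of_nonneg_left (hb' b) hρ0.le

end H69HL

theorem pf_HL : T_FCGO → T_HL := by
  intro hFCGO C S B Q _ X w hX hw M
  obtain ⟨ρ, h0, h1, hρ⟩ := H69HL.main X w hX hw M
  refine ⟨ρ, h0, h1, ?_⟩
  intro t ht L hL v hv y y' hgo
  refine (hρ t v y y' hgo).2 ?_
  by_contra hcon
  push Not at hcon
  exact hL y y' ((hFCGO C S B Q X w M t ht L y y').2 ⟨v, hv, hcon, hgo⟩)

end DS
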