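import Pool.Agent.H8.DS.TarK

/-!
Module K6 of the board ds_modules (MP_81a758_an).
-/

set_option autoImplicit false

namespace DS

open Set Data

namespace H69K6

theorem FC_split {C S : Type} (X : Data C S) (t : ℝ) (a b : ℕ) (y y' : S × ℝ)
    (h : X.FC t (a + b) y y') : ∃ y₁, X.FC t a y y₁ ∧ X.FC t b y₁ y' := by
  induction a generalizing y with
  | zero =>
    rw [Nat.zero_add] at h
    exact ⟨y, rfl, h⟩
  | succ a ih =>
    have h1 : a + 1 + b = (a + b) + 1 := by omega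
    rw [h1] at h
    obtain ⟨y₂, h2, h3, h4⟩ := h
    obtain ⟨y₁, h5, h6⟩ := ih y₂ h4
    exact ⟨y₁, ⟨y₂, h2, h3, h5⟩, h6⟩

end H69K6

theorem pf_K6 : T_K1 → T_K2A → T_K2 → T_K5 → T_GEN → T_K6 := by
  intro hK1 hK2A hK2 hK5 hGEN C S B Q _ _ X w hX hw M t ht htg
  obtain ⟨N, hN⟩ := hK1 C S B Q X w hX hw M t ht
  have hN' : ∀ n ≥ N + 1, ∀ y y', X.FC t n y y' →
      ¬ X.Hopf (X.comp (X.glue y'.1)) ∧ ¬ X.Hopf (X.comp y.1) :=
    fun n hn y y' h => hN n (by omega) y y' h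
  have h2 := hK2 C S X hX t htg (N + 1) hN'
  have h5 := hK5 C S X hX t htg h2
  by_contra hcon
  push Not at hcon
  obtain ⟨y₀, y₂, h⟩ := hcon ((N + 1) + (N + 1))
  obtain ⟨y₁, h01, h12⟩ := H69K6.FC_split X t (N + 1) (N + 1) y₀ y₂ h
  have hy₁ : y₁.2 ∈ Ioo (0 : ℝ) 1 := by
    obtain ⟨y', hhit, -, -⟩ := h12
    exact hhit.1
  obtain ⟨ε, hε, hδ⟩ := (hK2A C S X hX t htg (N + 1) hN').2 y₁ ⟨y₂, h12⟩ ⟨y₀, h01⟩ hy₁.1 hy₁.2
  have hdense := (hGEN C S X hX t y₁.1).dense_compl ℝ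
  obtain ⟨ξ, hξ, h3, h4⟩ := hdense.exists_between
    (show y₁.2 < min (y₁.2 + ε) 1 from lt_min (by linarith) hy₁.2)
  have hgen : X.Gen t (y₁.1, ξ) := by
    by_contra hng
    exact hξ hng
  have h6 : ξ < y₁.2 + ε := lt_of_lt_of_le h4 (min_le_left _ _)
  have h7 : ξ < 1 := lt_of_lt_of_le h4 (min_le_right _ _)
  have h8 : y₁.2 + (ξ - y₁.2) = ξ := by ring
  have h9 := hδ (ξ - y₁.2) (by rw [abs_of_pos (by linarith)]; linarith) (by rw [h8]; exact hgen)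
  rw [h8] at h9
  exact h5 y₁.1 ⟨ξ, ⟨by linarith [hy₁.1], h7⟩, h9⟩

end DS
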