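import Pool.Agent.H8.DS.TarG
import Pool.Agent.H8.DS.TarK

/-!
Module LFF of the board ds_modules (MP_81a758_an).
-/

set_option autoImplicit false

namespace DS

open Set Data

theorem pf_LFF : T_IRR → T_LOCF → T_MEET → T_LFF := by
  intro hIRR hLOCF hMEET C S _ X hX t₀ ht₀ s hs
  obtain ⟨H, hH, ε₁, hε₁, hirr⟩ := hIRR C S X hX (X.glue s) t₀ hs ht₀.irr
  set s₁ := X.glue s with hs₁
  set R : ℝ := |X.a s₁| + X.len s₁ + (|t₀| + 1) * H + |X.b s₁| + H with hR
  have hlen : 0 < X.len s₁ := hX.pos s₁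
  let Ks : Set (Lift S) := {k | X.comp k.1 = X.comp s₁ ∧ X.b s₁ < X.hgt k ∧
    ∃ η ∈ Icc (0 : ℝ) 1, |(act (X.lel k) (X.pt k.1 η)).1| ≤ R ∧
      |(act (X.lel k) (X.pt k.1 η)).2| ≤ R}
  have hfin : Ks.Finite := by
    let T : Set (S × ℝ × ℝ × ℝ) := ⋃ s' : S, (fun g => (s', g)) ''
      {g | g ∈ X.deck (X.comp s') ∧ ∃ ξ ∈ Icc (0 : ℝ) 1, |(act g (X.pt s' ξ)).1| ≤ R ∧
        |(act g (X.pt s' ξ)).2| ≤ R ∧ (X.Hopf (X.comp s') →
          1 ≤ |(act g (X.pt s' ξ)).1| ∨ 1 ≤ |(act g (X.pt s' ξ)).2|)}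
    have hT : T.Finite := Set.finite_iUnion fun s' => (hLOCF C S X hX s' 1 R one_pos).image _
    refine Set.Finite.of_injOn (f := fun k : Lift S => (k.1, X.lel k)) (t := T) ?_ ?_ hT
    · rintro k ⟨h1, h2, η, hη, h3, h4⟩
      refine Set.mem_iUnion.2 ⟨k.1, X.lel k, ⟨⟨k.2, rfl⟩, η, hη, h3, h4, fun h => ?_⟩, rfl⟩
      rw [h1] at h
      exact absurd h hs
    · rintro ⟨s', m, n⟩ ⟨h1, -⟩ ⟨s'', m', n'⟩ - heq
      have e1 : s' = s'' := congrArg Prod.fst heq
      subst e1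
      have e2 : X.lel (s', m, n) = X.lel (s', m', n') := congrArg Prod.snd heq
      have h1' : ¬ X.Hopf (X.comp s') := by
        have h1'' : X.comp s' = X.comp s₁ := h1
        rw [h1'']
        exact hs
      cases hk : X.kind (X.comp s') with
      | hopf l => exact absurd (by unfold Hopf; rw [hk]; trivial) h1'
      | flat e f =>
        simp only [lel, hk, Comp.el] at e2
        have e3 := congrArg (fun z => z.2.1) e2
        have e4 := congrArg (fun z => z.2.2) e2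
        simp only at e3 e4
        have h5 := ht₀.irr (X.comp s') e f hk (m - m') (n - n') (by
          push_cast
          have e5 : ((m : ℝ) - m') * e.1 + ((n : ℝ) - n') * f.1 = 0 := by linarith
          have e6 : ((m : ℝ) - m') * e.2 + ((n : ℝ) - n') * f.2 = 0 := by linarith
          rw [e5, e6, mul_zero])
        have e7 : m = m' := by omega
        have e8 : n = n' := by omega
        rw [e7, e8]
  have hmem : ∀ t, |t - t₀| < min ε₁ 1 → ∀ ξ ∈ Ioo (0 : ℝ) 1, ∀ k, X.Meets t s ξ k →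
      X.hgt k ≤ X.b s₁ + H → k ∈ Ks := by
    rintro t ht ξ ⟨hξ0, hξ1⟩ k ⟨m1, m2, m3, m4⟩ hkH
    obtain ⟨-, -, p1, p2, -, p3, -⟩ := hMEET C S X hX t s ξ k m1 m2
    refine ⟨m1, m2, X.La s k * ξ + (X.Lb s k * t + X.Lc s k), ⟨p2.1 m3, p3.1 m4⟩, ?_⟩
    rw [← (p1 _).2 rfl]
    have ht1 : |t| ≤ |t₀| + 1 := by
      have h1 : |t - t₀| < 1 := lt_of_lt_of_le ht (min_le_right _ _)
      have h2 : |t| ≤ |t₀| + |t - t₀| := by
        calc |t| = |t₀ + (t - t₀)| := by rw [add_sub_cancel]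
          _ ≤ _ := abs_add_le _ _
      linarith
    have hh0 : 0 ≤ X.hgt k - X.b s₁ := by linarith
    have hhH : X.hgt k - X.b s₁ ≤ H := by linarith
    have hth : |t * (X.hgt k - X.b s₁)| ≤ (|t₀| + 1) * H := by
      rw [abs_mul, abs_of_nonneg hh0]
      exact mul_le_mul ht1 hhH hh0 (by positivity)
    have hξl : |ξ * X.len s₁| ≤ X.len s₁ := by
      rw [abs_mul, abs_of_pos hlen, abs_of_pos hξ0]
      nlinarith
    have hB : 0 ≤ |X.b s₁| := abs_nonneg _
    have hA : 0 ≤ |X.a s₁| := abs_nonneg _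
    have hT0 : 0 ≤ (|t₀| + 1) * H := by positivity
    constructor
    · show |X.a s₁ + ξ * X.len s₁ + t * (X.hgt k - X.b s₁)| ≤ R
      refine (abs_add_le _ _).trans ?_
      have := abs_add_le (X.a s₁) (ξ * X.len s₁)
      linarith
    · show |X.b s₁ + (X.hgt k - X.b s₁)| ≤ R
      refine (abs_add_le _ _).trans ?_
      rw [abs_of_nonneg hh0]
      linarith
  refine ⟨min ε₁ 1, lt_min hε₁ one_pos, hfin.toFinset, ?_, ?_⟩
  · intro k hk
    rw [Set.Finite.mem_toFinset] at hk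
    exact ⟨hk.1, hk.2.1⟩
  · intro t ht ξ hξ k hk
    by_cases hkH : X.hgt k ≤ X.b s₁ + H
    · exact ⟨k, (Set.Finite.mem_toFinset _).2 (hmem t ht ξ hξ k hk hkH), le_refl _, hk⟩
    · push Not at hkH
      obtain ⟨h, ⟨hh0, hhH⟩, g, hg, η, ⟨hη0, hη1⟩, hgη⟩ :=
        hirr t (lt_of_lt_of_le ht (min_le_left _ _)) (X.pt s₁ ξ)
      obtain ⟨mn, rfl⟩ := hg
      let k' : Lift S := (s₁, mn)
      have hlel : X.lel k' = (X.kind (X.comp s₁)).el mn := rfl
      have hhgt : X.hgt k' = X.b s₁ + h := by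
        have h1 := congrArg Prod.snd hgη
        exact h1.symm
      have hgt0 : X.b s₁ < X.hgt k' := by rw [hhgt]; linarith
      obtain ⟨-, -, p1, p2, -, p3, -⟩ := hMEET C S X hX t s ξ k' rfl hgt0
      have h2 : X.hgt k' - X.b s₁ = h := by rw [hhgt]; ring
      have h3 : η = X.La s k' * ξ + (X.Lb s k' * t + X.Lc s k') := by
        refine (p1 η).1 ?_
        rw [← hs₁, h2]
        exact hgη
      have hmeet : X.Meets t s ξ k' :=
        ⟨rfl, hgt0, p2.2 (by rw [← h3]; exact hη0.le), p3.2 (by rw [← h3]; exact hη1.le)⟩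
      have hle : X.hgt k' ≤ X.b s₁ + H := by rw [hhgt]; linarith
      exact ⟨k', (Set.Finite.mem_toFinset _).2 (hmem t ht ξ hξ k' hmeet hle), by
        rw [hhgt]; linarith, hmeet⟩

end DS
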